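import Mathlib

/-!
OD-15, part 3: linear algebra.
-/

set_option autoImplicit false

namespace Pool.Agent.Y165.OD

theorem exists_sel {K : Type} [Field K] {h : ℕ} (Z B : Set (Fin h → K)) (hB : B ⊆ Z)
    (hh : 3 ≤ h) (hBc : B.encard ≤ ((h - 3 : ℕ) : ℕ∞)) (v : Fin (h - 1) → (Fin h → K))
    (hv : LinearIndependent K v) (hvZ : ∀ i, v i ∈ Z) :
    ∃ b : Set (Fin h → K), b ⊆ Z ∧ LinearIndepOn K id b ∧ b.encard = ((h - 2 : ℕ) : ℕ∞) ∧
      (∀ x ∈ B, x ∈ Submodule.span K b) ∧ ∃ x ∈ Z, x ∉ Submodule.span K b := by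
  classical
  obtain ⟨s, hsB, -, hBs, hs⟩ := exists_linearIndepOn_id_extension (K := K)
    (linearIndependent_empty K (Fin h → K)) (Set.empty_subset B)
  obtain ⟨c, hcZ, hsc, hZc, hc⟩ := exists_linearIndepOn_id_extension hs (hsB.trans hB)
  have hcf : c.Finite := LinearIndependent.setFinite hc
  have hc1 : ((h - 1 : ℕ) : ℕ∞) ≤ c.encard := by
    have h1 : ∀ i, v i ∈ Submodule.span K c := fun i => hZc (hvZ i)
    let v' : Fin (h - 1) → Submodule.span K c := fun i => ⟨v i, h1 i⟩
    have hv' : LinearIndependent K v' := by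
      apply LinearIndependent.of_comp (Submodule.span K c).subtype
      exact hv
    have h2 := hv'.fintype_card_le_finrank
    rw [Fintype.card_fin] at h2
    have h3 : Module.finrank K (Submodule.span K c) ≤ hcf.toFinset.card := by
      have := finrank_span_finset_le_card (R := K) hcf.toFinset
      rw [Set.Finite.coe_toFinset] at this
      exact this
    rw [hcf.encard_eq_coe_toFinset_card]
    exact_mod_cast h2.trans h3
  obtain ⟨b, hsb, hbc, hbe⟩ := Set.exists_superset_subset_encard_eq (k := ((h - 2 : ℕ) : ℕ∞)) hsc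
    ((Set.encard_le_encard hsB).trans (hBc.trans (by exact_mod_cast (by omega : h - 3 ≤ h - 2))))
    (le_trans (by exact_mod_cast (by omega : h - 2 ≤ h - 1)) hc1)
  refine ⟨b, hbc.trans hcZ, hc.mono hbc, hbe, fun x hx => Submodule.span_mono hsb (hBs hx), ?_⟩
  have h4 : ∃ x ∈ c, x ∉ b := by
    by_contra hcon
    push Not at hcon
    have h5 : c.encard ≤ b.encard := Set.encard_le_encard hcon
    rw [hbe] at h5
    have h6 := hc1.trans h5
    have h7 : h - 1 ≤ h - 2 := by exact_mod_cast h6
    omega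
  obtain ⟨x, hxc, hxb⟩ := h4
  refine ⟨x, hcZ hxc, ?_⟩
  have h5 : LinearIndepOn K id (insert x b) := hc.mono (Set.insert_subset hxc hbc)
  have h6 := h5.notMem_span_of_insert hxb
  simpa using h6

theorem exists_cols {Ω : Type} [Field Ω] (k₁ : Subfield Ω) {h : ℕ} (hh : 2 ≤ h)
    (b : Set (Fin h → Ω)) (hb : LinearIndepOn Ω id b) (hbc : b.encard = ((h - 2 : ℕ) : ℕ∞))
    (hbk : ∀ v ∈ b, ∀ j, v j ∈ k₁) :
    ∃ (p q : Fin h) (α β : Fin h → k₁),
      (∀ x : Fin h → Ω, (∀ v ∈ b, ∑ j, x j * v j = 0) → ∀ j, x j = α j * x p + β j * x q) ∧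
      (∀ y : Fin h → Ω, ∑ j, y j * α j = 0 → ∑ j, y j * β j = 0 → y ∈ Submodule.span Ω b) ∧
      (∀ y ∈ Submodule.span Ω b, ∑ j, y j * β j = 0) := by
  classical
  let e : Fin h → (Fin h → Ω) := fun j => Pi.single j 1
  obtain ⟨c, hcs, hbc', hspan, hci⟩ := exists_linearIndepOn_id_extension hb
    (Set.subset_union_left : b ⊆ b ∪ Set.range e)
  have hcf : c.Finite := LinearIndependent.setFinite hci
  let _ : Fintype c := hcf.fintype
  have htop : Submodule.span Ω c = ⊤ := by
    rw [eq_top_iff]
    have h1 : Submodule.span Ω (Set.range e) = ⊤ := by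
      have := (Pi.basisFun Ω (Fin h)).span_eq
      convert this using 2
      congr 1
      funext j
      simp [e]
    rw [← h1, Submodule.span_le]
    exact (Set.subset_union_right).trans hspan
  have hcard : Fintype.card c = h := by
    have h1 : Module.finrank Ω (Submodule.span Ω (Set.range (fun v : c => (v : Fin h → Ω)))) =
        Fintype.card c := finrank_span_eq_card (b := fun v : c => (v : Fin h → Ω)) hci
    rw [Subtype.range_coe, htop, finrank_top, Module.finrank_fin_fun] at h1
    exact h1.symm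
  have hce : c.encard = ((h : ℕ) : ℕ∞) := by
    rw [← Set.coe_fintypeCard, hcard]
  have hdiff : (c \ b).encard = 2 := by
    have h1 := Set.encard_sdiff_add_encard_of_subset hbc'
    rw [hce, hbc] at h1
    have h2 : ((h : ℕ) : ℕ∞) = 2 + ((h - 2 : ℕ) : ℕ∞) := by
      have : h = 2 + (h - 2) := by omega
      exact_mod_cast this
    rw [h2] at h1
    obtain ⟨n, hn⟩ := ENat.ne_top_iff_exists.1
      (Set.encard_ne_top_iff.2 (hcf.subset (Set.sdiff_subset (t := b))))
    rw [← hn] at h1 ⊢
    have h3 : n + (h - 2) = 2 + (h - 2) := by exact_mod_cast h1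
    have h4 : n = 2 := by omega
    rw [h4]
    rfl
  obtain ⟨x, y, hxy, hcb⟩ := Set.encard_eq_two.1 hdiff
  have hx : x ∈ c \ b := by rw [hcb]; simp
  have hy : y ∈ c \ b := by rw [hcb]; simp
  obtain ⟨p, hp⟩ : x ∈ Set.range e := (hcs hx.1).resolve_left hx.2
  obtain ⟨q, hq⟩ : y ∈ Set.range e := (hcs hy.1).resolve_left hy.2
  have hck : ∀ v ∈ c, ∀ j, v j ∈ k₁ := by
    intro v hv j
    rcases hcs hv with h1 | ⟨i, rfl⟩
    · exact hbk v h1 j
    · by_cases hij : j = i
      · subst hij
        simp [e, one_mem]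
      · simp [e, hij, zero_mem]
  let w : c → (Fin h → k₁) := fun v j => ⟨(v : Fin h → Ω) j, hck v v.2 j⟩
  have hw : LinearIndependent k₁ w := by
    rw [Fintype.linearIndependent_iff]
    intro g hg i
    have h1 : LinearIndependent Ω (fun v : c => (v : Fin h → Ω)) := hci
    rw [Fintype.linearIndependent_iff] at h1
    have h2 := h1 (fun v => (g v : Ω)) (by
      funext j
      have h3 := congrArg (fun x : k₁ => (x : Ω)) (congrFun hg j)
      simpa [w] using h3) i
    exact Subtype.ext h2
  have hne : Nonempty c := ⟨⟨x, hx.1⟩⟩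
  let Bs := basisOfLinearIndependentOfCardEqFinrank hw (by rw [hcard, Module.finrank_fin_fun])
  have hBs : ∀ v, Bs v = w v := fun v => by
    simp [Bs]
  let X : c := ⟨x, hx.1⟩
  let Y : c := ⟨y, hy.1⟩
  have hXY : X ≠ Y := fun hh => hxy (congrArg Subtype.val hh)
  let cf : Fin h → c → k₁ := fun j v => Bs.repr (Pi.single j 1) v
  have hcf' : ∀ j i, (e j i) = ∑ v : c, (cf j v : Ω) * (v : Fin h → Ω) i := by
    intro j i
    have h1 := Bs.sum_repr (Pi.single j 1)
    have h2 := congrArg (fun x : k₁ => (x : Ω)) (congrFun h1 i)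
    simp only [hBs, Finset.sum_apply, Pi.smul_apply, smul_eq_mul] at h2
    rw [AddSubmonoidClass.coe_finset_sum] at h2
    have h3 : ((Pi.single j (1 : k₁) : Fin h → k₁) i : Ω) = e j i := by
      by_cases hij : i = j
      · subst hij
        simp [e]
      · simp [e, hij]
    rw [h3] at h2
    rw [← h2]
    exact Finset.sum_congr rfl fun v _ => rfl
  have hother : ∀ v : c, v ≠ X → v ≠ Y → (v : Fin h → Ω) ∈ b := by
    intro v h1 h2
    by_contra h3
    have h4 : (v : Fin h → Ω) ∈ c \ b := ⟨v.2, h3⟩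
    rw [hcb] at h4
    rcases h4 with h4 | h4
    · exact h1 (Subtype.ext h4)
    · exact h2 (Subtype.ext h4)
  refine ⟨p, q, fun j => cf j X, fun j => cf j Y, ?_, ?_, ?_⟩
  · intro z hz j
    have h1 : z j = ∑ i, z i * e j i := by
      rw [Finset.sum_eq_single j]
      · simp [e]
      · intro i _ hij
        simp [e, hij]
      · simp
    have h2 : ∀ v : c, ∑ i, z i * ((cf j v : Ω) * (v : Fin h → Ω) i) =
        (cf j v : Ω) * ∑ i, z i * (v : Fin h → Ω) i := by
      intro v
      rw [Finset.mul_sum]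
      exact Finset.sum_congr rfl fun i _ => by ring
    have h3 : ∀ (r : Fin h) (u : Fin h → Ω), e r = u → ∑ i, z i * u i = z r := by
      rintro r u rfl
      rw [Finset.sum_eq_single r]
      · simp [e]
      · intro i _ hij
        simp [e, hij]
      · simp
    rw [h1]
    simp_rw [hcf', Finset.mul_sum]
    rw [Finset.sum_comm]
    simp_rw [h2]
    rw [Finset.sum_eq_add X Y hXY]
    · rw [h3 p x hp, h3 q y hq]
    · intro v _ hv
      rw [hz v (hother v hv.1 hv.2), mul_zero]
    · simp
    · simp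
  · intro z hz1 hz2
    have h1 : z = ∑ v : c, (∑ j, z j * (cf j v : Ω)) • (v : Fin h → Ω) := by
      funext i
      have h2 : z i = ∑ j, z j * e j i := by
        rw [Finset.sum_eq_single i]
        · simp [e]
        · intro j _ hij
          simp [e, Ne.symm hij]
        · simp
      rw [h2]
      simp_rw [hcf', Finset.mul_sum]
      rw [Finset.sum_comm, Finset.sum_apply]
      refine Finset.sum_congr rfl fun v _ => ?_
      rw [Pi.smul_apply, smul_eq_mul, Finset.sum_mul]
      exact Finset.sum_congr rfl fun j _ => by ring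
    rw [h1]
    refine Submodule.sum_mem _ fun v _ => ?_
    by_cases hvX : v = X
    · rw [hvX, hz1, zero_smul]
      exact Submodule.zero_mem _
    by_cases hvY : v = Y
    · rw [hvY, hz2, zero_smul]
      exact Submodule.zero_mem _
    · exact Submodule.smul_mem _ _ (Submodule.subset_span (hother v hvX hvY))
  · intro z hz
    let f : (Fin h → Ω) →ₗ[Ω] Ω := ∑ j, (cf j Y : Ω) • LinearMap.proj j
    have hf : ∀ x, f x = ∑ j, x j * (cf j Y : Ω) := by
      intro x
      simp only [f, LinearMap.sum_apply, LinearMap.smul_apply, LinearMap.proj_apply, smul_eq_mul]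
      exact Finset.sum_congr rfl fun j _ => mul_comm _ _
    have hle : Submodule.span Ω b ≤ LinearMap.ker f := by
      rw [Submodule.span_le]
      intro v hv
      show f v = 0
      rw [hf]
      have hvc : v ∈ c := hbc' hv
      have h1 : w ⟨v, hvc⟩ = ∑ j, w ⟨v, hvc⟩ j • (Pi.single j 1 : Fin h → k₁) := by
        funext i
        rw [Finset.sum_apply, Finset.sum_eq_single i]
        · simp
        · intro j _ hij
          simp [Ne.symm hij]
        · simp
      have h2 : Bs.repr (w ⟨v, hvc⟩) Y = ∑ j, w ⟨v, hvc⟩ j * cf j Y := by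
        conv_lhs => rw [h1]
        rw [map_sum, Finsupp.finset_sum_apply]
        refine Finset.sum_congr rfl fun j _ => ?_
        rw [map_smul, Finsupp.smul_apply, smul_eq_mul]
      have h3 : Bs.repr (w ⟨v, hvc⟩) Y = 0 := by
        rw [← hBs, Bs.repr_self, Finsupp.single_apply, if_neg]
        intro h4
        have h5 : v = y := congrArg Subtype.val h4
        exact hy.2 (h5 ▸ hv)
      rw [h3] at h2
      have h4 := congrArg (fun x : k₁ => (x : Ω)) h2
      simp only [AddSubmonoidClass.coe_finset_sum, MulMemClass.coe_mul, ZeroMemClass.coe_zero] at h4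
      exact h4.symm
    have := hle hz
    rw [LinearMap.mem_ker, hf] at this
    exact this

end Pool.Agent.Y165.OD
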