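import Pool.Agent.Y165.OD.Ev
import Pool.Agent.Y165.OD.Lin

/-!
OD-15: a moving set of independent embeddings of the function field of a curve.
-/

set_option autoImplicit false

namespace Pool.Agent.Y165.OD

open MvPolynomial Pool.Agent.Y148.OD

theorem rk_alg {Ω : Type} [Field Ω] {K : Subfield Ω} {t : Ω} (h : IsAlgebraic K t) :
    rk K {t} = 0 := by
  have h1 : rk K {t} ≤ rk K ∅ := rk_le_of_isAlgebraic fun x hx => by
    rw [Set.mem_singleton_iff] at hx
    subst hx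
    exact h.extendScalars (FaithfulSMul.algebraMap_injective K _)
  rw [rk_empty] at h1
  exact le_antisymm h1 zero_le

theorem rk_adj_self {Ω : Type} [Field Ω] (K : Subfield Ω) (T : Set Ω) :
    rk K (adj K T : Set Ω) ≤ rk K T := by
  calc rk K (adj K T : Set Ω) ≤ rk K ((adj K T : Set Ω) ∪ T) := rk_mono _ Set.subset_union_left
    _ = rk K T + rk (adj K T) (adj K T : Set Ω) := rk_union _ _ _
    _ = rk K T := by rw [rk_eq_zero (fun x hx => hx), add_zero]

theorem moving_of (hLD : StmLD) (hS : StmSpace) : StmMoving := by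
  classical
  intro Ω _ _ _ _ k hk hka E _ _ hFG htr
  obtain ⟨β0, hβ⟩ := hS Ω k hk hka E hFG htr
  obtain ⟨h, hh, ℓ, hℓ, hZ⟩ := hβ (β0 + 3)
  obtain ⟨τ, hτ⟩ := exists_pts (Ω := Ω) htr (h - 1)
  have hind := lin_indep ℓ hLD hk hka htr hℓ (h - 1) (by omega) τ hτ
  obtain ⟨g0, hg0, ho0⟩ := exists_orth (K := Ω) (n := h - 1) (h := h) (by omega)
    (fun i => ev ℓ (τ i))
  obtain ⟨j0, hj0⟩ : ∃ j, g0 j ≠ 0 := by
    by_contra hcon
    push Not at hcon
    exact hg0 (funext hcon)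
  have hinf : Infinite k := inferInstance
  set g1 : Fin h → Ω := fun j => (g0 j0)⁻¹ * g0 j with hg1
  have hg1j : g1 j0 = 1 := inv_mul_cancel₀ hj0
  have ho1 : ∀ i, ∑ j, g1 j * τ i (ℓ j) = 0 := by
    intro i
    have h1 := ho0 i
    have h2 : ∑ j, g1 j * τ i (ℓ j) = (g0 j0)⁻¹ * ∑ j, g0 j * ev ℓ (τ i) j := by
      rw [Finset.mul_sum]
      exact Finset.sum_congr rfl fun j _ => by rw [hg1, ev]; ring
    rw [h2, h1, mul_zero]
  have hg1ne : g1 ≠ 0 := fun h0 => by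
    have := congrFun h0 j0
    rw [hg1j] at this
    exact one_ne_zero this
  have hgen := generic_of_rk g1 j0 hg1j (rk_orth ℓ hLD hk hka htr hℓ τ hτ g1 hg1ne ho1)
  have hZ1 := hZ g1 hgen
  set Z1 : Set (E →ₐ[k] Ω) := {σ | ∑ i, g1 i * σ (ℓ i) = 0} with hZ1def
  have hτinj : Function.Injective τ := by
    intro i j hij
    apply hind.injective
    show ev ℓ (τ i) = ev ℓ (τ j)
    rw [hij]
  have hτZ : Set.range τ ⊆ Z1 := by
    rintro _ ⟨i, rfl⟩
    exact ho1 i
  have hBc : (ev ℓ '' (Z1 \ Set.range τ)).encard ≤ ((h - 3 : ℕ) : ℕ∞) := by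
    refine (Set.encard_image_le _ _).trans ?_
    have h1 := Set.encard_sdiff_add_encard_of_subset hτZ
    have h2 : (Set.range τ).encard = ((h - 1 : ℕ) : ℕ∞) := by
      rw [← Set.image_univ, hτinj.encard_image, Set.encard_univ, ENat.card_eq_coe_fintype_card,
        Fintype.card_fin]
    rw [h2] at h1
    have h3 : (Z1 \ Set.range τ).encard + ((h - 1 : ℕ) : ℕ∞) ≤ ((h - 1 + β0 : ℕ) : ℕ∞) :=
      h1.trans_le hZ1
    have hne : (Z1 \ Set.range τ).encard ≠ ⊤ := by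
      intro h4
      rw [h4, top_add] at h3
      exact absurd h3 (by simp)
    obtain ⟨n, hn⟩ := ENat.ne_top_iff_exists.1 hne
    rw [← hn] at h3 ⊢
    have h5 : n + (h - 1) ≤ h - 1 + β0 := by exact_mod_cast h3
    have h6 : n ≤ h - 3 := by omega
    exact_mod_cast h6
  obtain ⟨b, hbZ, hbi, hbe, hBb, x0, hx0Z, hx0b⟩ := exists_sel (ev ℓ '' Z1)
    (ev ℓ '' (Z1 \ Set.range τ)) (Set.image_mono Set.sdiff_subset) (by omega) hBc
    (fun i => ev ℓ (τ i)) hind (fun i => ⟨_, hτZ ⟨i, rfl⟩, rfl⟩)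
  have hbf : b.Finite := LinearIndependent.setFinite hbi
  set U : Set Ω := ⋃ v ∈ hbf.toFinset, Set.range v with hU
  have hUc : U.Countable := by
    rw [hU]
    exact Set.Finite.countable (Set.Finite.biUnion (Finset.finite_toSet _)
      fun v _ => Set.finite_range v)
  have hUr : rk k U ≤ ((h - 2 : ℕ) : ℕ∞) := by
    have h1 := rk_biUnion_le k (fun v : Fin h → Ω => Set.range v) 1 hbf.toFinset (by
      intro v hv
      rw [Set.Finite.mem_toFinset] at hv
      obtain ⟨σ, -, rfl⟩ := hbZ hv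
      refine (rk_mono k (T := Set.range σ) ?_).trans (by simpa using rk_range_le htr σ)
      rintro _ ⟨j, rfl⟩
      exact ⟨_, rfl⟩)
    have h2 : hbf.toFinset.card = h - 2 := by
      have h3 := hbf.encard_eq_coe_toFinset_card
      rw [hbe] at h3
      exact_mod_cast h3.symm
    rw [h2, one_mul] at h1
    exact h1
  set k₁ := adj k U with hk₁
  have hkk : k ≤ k₁ := le_adj_left _ _
  have hbk : ∀ v ∈ b, ∀ j, v j ∈ k₁ := by
    intro v hv j
    refine subset_adj _ _ ?_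
    rw [hU, Set.mem_iUnion₂]
    exact ⟨v, (Set.Finite.mem_toFinset _).2 hv, j, rfl⟩
  obtain ⟨p, q, α, β, hstar, hc1, hc2⟩ := exists_cols k₁ (by omega) b hbi hbe hbk
  have hg1p : g1 p ≠ 0 := by
    have := hgen 1 (X p) (isHomogeneous_X _ p) (X_ne_zero p)
    rwa [aeval_X] at this
  set g : Fin h → Ω := fun j => (g1 p)⁻¹ * g1 j with hg
  have hgp : g p = 1 := inv_mul_cancel₀ hg1p
  have hsc : ∀ σ : E →ₐ[k] Ω, ∑ j, g j * σ (ℓ j) = (g1 p)⁻¹ * ∑ j, g1 j * σ (ℓ j) := by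
    intro σ
    rw [Finset.mul_sum]
    exact Finset.sum_congr rfl fun j _ => by rw [hg]; ring
  have hZg : ∀ σ : E →ₐ[k] Ω, σ ∈ Z1 ↔ ∑ j, g j * σ (ℓ j) = 0 := by
    intro σ
    rw [hsc, mul_eq_zero, inv_eq_zero, or_iff_right hg1p]
    rfl
  set t : Ω := g q with ht
  have hgt : ∀ j, g j = α j + β j * t := by
    intro j
    have h1 := hstar g (by
      intro v hv
      obtain ⟨σ, hσ, rfl⟩ := hbZ hv
      exact (hZg σ).1 hσ) j
    rw [hgp, mul_one] at h1
    exact h1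
  have hsplit : ∀ σ ∈ Z1, ∑ j, σ (ℓ j) * α j + t * ∑ j, σ (ℓ j) * β j = 0 := by
    intro σ hσ
    have h1 := (hZg σ).1 hσ
    rw [Finset.mul_sum, ← Finset.sum_add_distrib, ← h1]
    refine Finset.sum_congr rfl fun j _ => ?_
    rw [hgt j]
    ring
  set I : Finset (Fin (h - 1)) := Finset.univ.filter fun i => ∑ j, τ i (ℓ j) * (β j : Ω) ≠ 0
    with hI
  have hC : ∀ σ ∈ Z1, ∑ j, σ (ℓ j) * (β j : Ω) ≠ 0 → ∃ i ∈ I, σ = τ i := by
    intro σ hσ hne
    by_cases hr : σ ∈ Set.range τ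
    · obtain ⟨i, rfl⟩ := hr
      exact ⟨i, Finset.mem_filter.2 ⟨Finset.mem_univ _, hne⟩, rfl⟩
    · exact absurd (hc2 _ (hBb _ ⟨σ, ⟨hσ, hr⟩, rfl⟩)) hne
  have hIne : I.Nonempty := by
    obtain ⟨σ0, hσ0, rfl⟩ := hx0Z
    obtain ⟨i, hi, -⟩ := hC σ0 hσ0 (by
      intro h0
      have h1 := hsplit σ0 hσ0
      rw [h0, mul_zero, add_zero] at h1
      exact hx0b (hc1 _ h1 h0))
    exact ⟨i, hi⟩
  obtain ⟨e, he⟩ : ∃ e, I.card = e + 1 := ⟨I.card - 1, by have := hIne.card_pos; omega⟩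
  let φ : I ≃ Fin (e + 1) := Finset.equivFinOfCardEq he
  have hrankg : ((h - 1 : ℕ) : ℕ∞) ≤ rk k (Set.range g) := by
    refine rk_orth ℓ hLD hk hka htr hℓ τ hτ g ?_ (fun i => (hZg _).1 (hτZ ⟨i, rfl⟩))
    intro h0
    have := congrFun h0 p
    rw [hgp] at this
    exact one_ne_zero this
  have htrans : Transcendental k₁ t := by
    intro halg
    have h1 : rk k (Set.range g) ≤ rk k U := by
      calc rk k (Set.range g) ≤ rk k (adj k (U ∪ {t}) : Set Ω) := by
            apply rk_mono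
            rintro _ ⟨j, rfl⟩
            rw [hgt j]
            have hle : k₁ ≤ adj k (U ∪ {t}) :=
              adj_le (le_adj_left _ _) (Set.subset_union_left.trans (subset_adj _ _))
            exact add_mem (hle (α j).2) (mul_mem (hle (β j).2)
              (subset_adj _ _ (Or.inr rfl)))
        _ ≤ rk k (U ∪ {t}) := rk_adj_self _ _
        _ = rk k U + rk k₁ {t} := rk_adj_union _ _ _
        _ = rk k U := by rw [rk_alg halg, add_zero]
    have h2 := hrankg.trans (h1.trans hUr)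
    have h3 : h - 1 ≤ h - 2 := by exact_mod_cast h2
    omega
  refine ⟨e, fun j => τ (φ.symm j), k₁, t, countable_adj hUc, hkk, htrans, ?_, ?_, ?_, ?_⟩
  · intro i j hij
    exact φ.symm.injective (Subtype.ext (hτinj hij))
  · -- the rank
    have h1 : (⋃ j, Set.range (τ (φ.symm j))) = ⋃ i ∈ I, Set.range (τ i) := by
      ext x
      simp only [Set.mem_iUnion]
      constructor
      · rintro ⟨j, hj⟩
        exact ⟨_, (φ.symm j).2, hj⟩
      · rintro ⟨i, hi, hx⟩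
        refine ⟨φ ⟨i, hi⟩, ?_⟩
        rw [Equiv.symm_apply_apply]
        exact hx
    rw [h1]
    have h2 : (⋃ i, Set.range (τ i)) ⊆ (⋃ i ∈ Iᶜ, Set.range (τ i)) ∪ ⋃ i ∈ I, Set.range (τ i) := by
      intro x hx
      obtain ⟨i, hi⟩ := Set.mem_iUnion.1 hx
      by_cases hiI : i ∈ I
      · right
        exact Set.mem_iUnion₂.2 ⟨i, hiI, hi⟩
      · left
        exact Set.mem_iUnion₂.2 ⟨i, Finset.mem_compl.2 hiI, hi⟩
    have h3 := rk_biUnion_le k (fun i => Set.range (τ i)) 1 Iᶜ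
      (fun i _ => by simpa using rk_range_le htr (τ i))
    have h4 := hτ.trans ((rk_mono k h2).trans (rk_union_le _ _ _))
    have hIle : I.card ≤ h - 1 := by
      have := Finset.card_le_univ I
      rwa [Fintype.card_fin] at this
    rw [Finset.card_compl, Fintype.card_fin, one_mul] at h3
    refine cancel_aux (p := h - 1 - I.card) (q := e + 1) ?_ h3
    rw [show h - 1 - I.card + (e + 1) = h - 1 by omega]
    exact h4
  · intro j
    set i := φ.symm j with hi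
    have hiI : (i : Fin (h - 1)) ∈ I := i.2
    have hne := (Finset.mem_filter.1 hiI).2
    have h1 := hsplit (τ i) (hτZ ⟨_, rfl⟩)
    have h2 : t = -(∑ j, τ i (ℓ j) * (α j : Ω)) / ∑ j, τ i (ℓ j) * (β j : Ω) := by
      rw [eq_div_iff hne]
      linear_combination h1
    rw [h2]
    have hm : ∀ (γ : Fin h → k₁), ∑ j, τ i (ℓ j) * (γ j : Ω) ∈ adj k₁ (Set.range (τ i)) := by
      intro γ
      exact sum_mem fun j _ => mul_mem (subset_adj _ _ ⟨_, rfl⟩) (le_adj_left _ _ (γ j).2)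
    exact div_mem (neg_mem (hm α)) (hm β)
  · intro F hkF htF hτF σ hσ1 hσt i
    set i' := φ.symm i with hi'
    let ρ0 : E →+* Ω := σ.comp ((τ i' : E →+* Ω).codRestrict F (fun x => hτF i x))
    have hρ0 : ∀ x, ρ0 x = σ ⟨τ i' x, hτF i x⟩ := fun x => rfl
    let ρ : E →ₐ[k] Ω := { ρ0 with
      commutes' := by
        intro c
        show ρ0 (algebraMap k E c) = algebraMap k Ω c
        rw [hρ0]
        have h1 : τ i' (algebraMap k E c) = (c : Ω) := (τ i').commutes c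
        have h2 := hσ1 ⟨τ i' (algebraMap k E c), hτF i _⟩ (by
          show τ i' (algebraMap k E c) ∈ k₁
          rw [h1]
          exact hkk c.2)
        rw [h2]
        exact h1 }
    have hρ : ∀ x, ρ x = σ ⟨τ i' x, hτF i x⟩ := fun x => rfl
    have hk₁F : ∀ c : k₁, (c : Ω) ∈ F := fun c => hkF c.2
    have hσk : ∀ c : k₁, σ ⟨c, hk₁F c⟩ = c := fun c => hσ1 ⟨c, hk₁F c⟩ c.2
    have hσt' : σ ⟨t, htF⟩ = t := hσt ⟨t, htF⟩ rfl
    have hgF : ∀ j, g j ∈ F := fun j => by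
      rw [hgt j]
      exact add_mem (hk₁F _) (mul_mem (hk₁F _) htF)
    have hσg : ∀ j, σ ⟨g j, hgF j⟩ = g j := by
      intro j
      have h1 : (⟨g j, hgF j⟩ : F) = ⟨α j, hk₁F _⟩ + ⟨β j, hk₁F _⟩ * ⟨t, htF⟩ :=
        Subtype.ext (hgt j)
      rw [h1, map_add, map_mul, hσk, hσk, hσt', ← hgt j]
    have hρZ : ρ ∈ Z1 := by
      rw [hZg]
      have h1 : ∑ j, (⟨g j, hgF j⟩ : F) * ⟨τ i' (ℓ j), hτF i _⟩ = 0 := by
        apply Subtype.ext
        rw [AddSubmonoidClass.coe_finsetSum]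
        exact (hZg _).1 (hτZ ⟨(i' : Fin (h - 1)), rfl⟩)
      have h2 := congrArg σ h1
      rw [map_sum, map_zero] at h2
      rw [← h2]
      refine Finset.sum_congr rfl fun j _ => ?_
      rw [map_mul, hσg, hρ]
    have hρne : ∑ j, ρ (ℓ j) * (β j : Ω) ≠ 0 := by
      intro h0
      have hne := (Finset.mem_filter.1 i'.2).2
      apply hne
      have h1 : σ (∑ j, (⟨τ i' (ℓ j), hτF i _⟩ : F) * ⟨β j, hk₁F _⟩) = 0 := by
        rw [map_sum, ← h0]
        refine Finset.sum_congr rfl fun j _ => ?_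
        rw [map_mul, hσk, hρ]
      have h2 := (map_eq_zero_iff σ σ.injective).1 h1
      have h3 := congrArg (fun x : F => (x : Ω)) h2
      rw [AddSubmonoidClass.coe_finsetSum] at h3
      exact h3
    obtain ⟨i₂, hi₂, hρi⟩ := hC ρ hρZ hρne
    refine ⟨φ ⟨i₂, hi₂⟩, fun x y hy => ?_⟩
    show σ y = τ (φ.symm (φ ⟨i₂, hi₂⟩)) x
    rw [Equiv.symm_apply_apply]
    have h1 : y = ⟨τ i' x, hτF i x⟩ := Subtype.ext hy
    rw [h1, ← hρ x, hρi]

end Pool.Agent.Y165.OD
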