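import Pool.Agent.Y165.OD.Pts

/-!
OD-15, part 2: independent embeddings and the vectors of the values of the functions.
-/

set_option autoImplicit false

namespace Pool.Agent.Y165.OD

open MvPolynomial Pool.Agent.Y148.OD

theorem rk_biUnion_le {Ω : Type} [Field Ω] {ι : Type} [DecidableEq ι] (K : Subfield Ω)
    (S : ι → Set Ω) (b : ℕ) (I : Finset ι) (h : ∀ i ∈ I, rk K (S i) ≤ b) :
    rk K (⋃ i ∈ I, S i) ≤ (b * I.card : ℕ) := by
  induction I using Finset.induction_on with
  | empty => simp [rk_empty]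
  | insert i I hi ih =>
    rw [Finset.set_biUnion_insert, Finset.card_insert_of_notMem hi]
    refine (rk_union_le _ _ _).trans ?_
    have h1 := h i (Finset.mem_insert_self _ _)
    have h2 := ih fun j hj => h j (Finset.mem_insert_of_mem hj)
    calc _ ≤ (b : ℕ∞) + (b * I.card : ℕ) := add_le_add h1 h2
      _ = _ := by push_cast; ring

theorem rk_iUnion_fin_le {Ω : Type} [Field Ω] {n : ℕ} (K : Subfield Ω)
    (S : Fin n → Set Ω) (b : ℕ) (h : ∀ i, rk K (S i) ≤ b) :
    rk K (⋃ i, S i) ≤ (b * n : ℕ) := by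
  have h1 := rk_biUnion_le K S b Finset.univ (fun i _ => h i)
  simpa using h1

theorem iUnion_snoc {Ω : Type} {n : ℕ} (S : Fin (n + 1) → Set Ω) :
    (⋃ i, S i) = S (Fin.last n) ∪ ⋃ i : Fin n, S i.castSucc := by
  ext x
  simp only [Set.mem_iUnion, Set.mem_union]
  constructor
  · rintro ⟨i, hi⟩
    induction i using Fin.lastCases with
    | last => exact Or.inl hi
    | cast j => exact Or.inr ⟨j, hi⟩
  · rintro (h | ⟨j, h⟩)
    · exact ⟨_, h⟩
    · exact ⟨_, h⟩

/-- an orthogonal vector -/
theorem exists_orth {K : Type} [Field K] {n h : ℕ} (hn : n < h) (v : Fin n → Fin h → K) :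
    ∃ a : Fin h → K, a ≠ 0 ∧ ∀ i, ∑ j, a j * v i j = 0 := by
  let f : (Fin h → K) →ₗ[K] (Fin n → K) := (Matrix.of v).mulVecLin
  have h1 : LinearMap.ker f ≠ ⊥ := LinearMap.ker_ne_bot_of_finrank_lt (by simpa using hn)
  obtain ⟨a, ha, ha0⟩ := (Submodule.ne_bot_iff _).1 h1
  refine ⟨a, ha0, fun i => ?_⟩
  have h2 : f a = 0 := ha
  have h3 := congrFun h2 i
  simp only [f, Matrix.mulVecLin_apply, Matrix.mulVec, dotProduct, Matrix.of_apply] at h3
  rw [Pi.zero_apply] at h3
  rw [← h3]
  exact Finset.sum_congr rfl fun j _ => mul_comm _ _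

section

variable {Ω : Type} [Field Ω] [IsAlgClosed Ω] [Uncountable Ω] {k : Subfield Ω}
  {E : Type} [Field E] [Algebra k E] {h : ℕ} (ℓ : Fin h → E)

/-- the vector of the values -/
def ev (τ : E →ₐ[k] Ω) : Fin h → Ω := fun j => τ (ℓ j)

theorem use_LD (hLD : StmLD) (hk : Countable k) (hka : IsAlgClosed k)
    (htr : Algebra.trdeg k E = 1) (hℓ : LinearIndependent k ℓ) {L : Subfield Ω} (hL : k ≤ L)
    (τ : E →ₐ[k] Ω) (hτ : 1 ≤ rk L (Set.range τ)) (a : Fin h → Ω) (haL : ∀ j, a j ∈ L)
    (hs : ∑ j, a j * τ (ℓ j) = 0) : a = 0 := by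
  set K := adj k (Set.range a) with hK
  have hKL : K ≤ L := adj_le hL (by rintro _ ⟨j, rfl⟩; exact haL j)
  have h1 : 1 ≤ rk K (Set.range τ) := hτ.trans (rk_anti hKL _)
  have h2 : Set.range (fun j => τ (ℓ j)) ⊆ Set.range τ := by
    rintro _ ⟨j, rfl⟩
    exact ⟨_, rfl⟩
  have h3 := rk_sub_eq (le_adj_left k (Set.range a)) h2 (rk_range_le htr τ) h1
  have h4 : rk k (Set.range a ∪ Set.range fun j => τ (ℓ j)) =
      rk k (Set.range a) + rk k (Set.range fun j => τ (ℓ j)) := by
    rw [rk_adj_union, ← hK, h3]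
  have h5 : LinearIndependent k (fun j => τ (ℓ j)) := by
    have := hℓ.map' τ.toLinearMap (LinearMap.ker_eq_bot.2 τ.toRingHom.injective)
    exact this
  exact funext fun j => hLD Ω h k hk hka a (fun j => τ (ℓ j)) h4 h5 hs j

theorem lin_indep (hLD : StmLD) (hk : Countable k) (hka : IsAlgClosed k)
    (htr : Algebra.trdeg k E = 1) (hℓ : LinearIndependent k ℓ) (n : ℕ) (hn : n ≤ h)
    (τ : Fin n → (E →ₐ[k] Ω)) (hτ : (n : ℕ∞) ≤ rk k (⋃ i, Set.range (τ i))) :
    LinearIndependent Ω (fun i => ev ℓ (τ i)) := by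
  induction n with
  | zero => exact linearIndependent_empty_type
  | succ n ih =>
    rw [linearIndependent_finSucc']
    set U : Set Ω := ⋃ i : Fin n, Set.range (τ i.castSucc) with hU
    have hrU : rk k U ≤ (n : ℕ∞) := by
      have := rk_iUnion_fin_le k (fun i : Fin n => Set.range (τ i.castSucc)) 1
        (fun i => by simpa using rk_range_le htr _)
      simpa using this
    rw [iUnion_snoc] at hτ
    have h1 : (n : ℕ∞) ≤ rk k U := by
      have h2 : ((n + 1 : ℕ) : ℕ∞) ≤ 1 + rk k U :=
        hτ.trans ((rk_union_le _ _ _).trans (add_le_add_left (rk_range_le htr _) _))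
      refine cancel_aux (a := 1) (p := 1) (q := n) ?_ (by simp)
      rwa [add_comm 1 n]
    have h2 : 1 ≤ rk (adj k U) (Set.range (τ (Fin.last n))) := by
      rw [rk_union] at hτ
      exact_mod_cast cancel_aux (a := rk k U) (p := n) (q := 1) hτ hrU
    refine ⟨ih (by omega) (fun i => τ i.castSucc) h1, ?_⟩
    intro hmem
    -- an orthogonal vector over `adj k U`
    have hmemU : ∀ (i : Fin n) (j : Fin h), τ i.castSucc (ℓ j) ∈ adj k U := fun i j =>
      subset_adj _ _ (Set.mem_iUnion.2 ⟨i, ⟨_, rfl⟩⟩)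
    obtain ⟨a, ha0, ha⟩ := exists_orth (K := adj k U) (show n < h by omega)
      (fun i j => ⟨τ i.castSucc (ℓ j), hmemU i j⟩)
    have ha' : ∀ i : Fin n, ∑ j, (a j : Ω) * τ i.castSucc (ℓ j) = 0 := by
      intro i
      have := congrArg (fun x : adj k U => (x : Ω)) (ha i)
      simpa using this
    let f : (Fin h → Ω) →ₗ[Ω] Ω := ∑ j, (a j : Ω) • LinearMap.proj j
    have hf : ∀ x, f x = ∑ j, (a j : Ω) * x j := by
      intro x
      simp [f]
    have hspan : Submodule.span Ω (Set.range (Fin.init fun i => ev ℓ (τ i))) ≤ LinearMap.ker f := by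
      rw [Submodule.span_le]
      rintro _ ⟨i, rfl⟩
      show f _ = 0
      rw [hf]
      exact ha' i
    have h3 : f (ev ℓ (τ (Fin.last n))) = 0 := hspan hmem
    rw [hf] at h3
    have h4 := use_LD ℓ hLD hk hka htr hℓ (le_adj_left k U) (τ (Fin.last n)) h2
      (fun j => (a j : Ω)) (fun j => (a j).2) h3
    apply ha0
    funext j
    have := congrFun h4 j
    exact Subtype.ext (by simpa using this)

theorem exists_pts (htr : Algebra.trdeg k E = 1) [Countable k] (n : ℕ) :
    ∃ τ : Fin n → (E →ₐ[k] Ω), (n : ℕ∞) ≤ rk k (⋃ i, Set.range (τ i)) := by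
  have hE : Countable E := countable_E htr
  induction n with
  | zero => exact ⟨fun i => i.elim0, by simp⟩
  | succ n ih =>
    obtain ⟨τ, hτ⟩ := ih
    set U : Set Ω := ⋃ i, Set.range (τ i) with hU
    have hUc : U.Countable := Set.countable_iUnion fun i => Set.countable_range _
    have hLc : Countable (adj k U) := countable_adj hUc
    obtain ⟨σ, hσ⟩ := exists_emb (Ω := Ω) htr (le_adj_left k U) hLc
    refine ⟨Fin.snoc τ σ, ?_⟩
    rw [iUnion_snoc]
    have e1 : (⋃ i : Fin n, Set.range ((Fin.snoc τ σ : Fin (n + 1) → (E →ₐ[k] Ω)) i.castSucc)) = U := by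
      rw [hU]
      congr 1
      funext i
      rw [Fin.snoc_castSucc]
    rw [e1, Fin.snoc_last, rk_union]
    push_cast
    exact add_le_add hτ hσ

/-- the rank of the coordinates of a vector orthogonal to independent points -/
theorem rk_orth (hLD : StmLD) (hk : Countable k) (hka : IsAlgClosed k)
    (htr : Algebra.trdeg k E = 1) (hℓ : LinearIndependent k ℓ) {n : ℕ}
    (τ : Fin n → (E →ₐ[k] Ω)) (hτ : (n : ℕ∞) ≤ rk k (⋃ i, Set.range (τ i)))
    (g : Fin h → Ω) (hg : g ≠ 0) (ho : ∀ i, ∑ j, g j * τ i (ℓ j) = 0) :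
    (n : ℕ∞) ≤ rk k (Set.range g) := by
  set L := adj k (Set.range g) with hL
  have h1 : ∀ i, rk L (Set.range (τ i)) ≤ (0 : ℕ) := by
    intro i
    by_contra hc
    have h2 : 1 ≤ rk L (Set.range (τ i)) := by
      rw [Order.one_le_iff_pos, pos_iff_ne_zero]
      intro h0
      apply hc
      rw [h0]
      simp
    exact hg (use_LD ℓ hLD hk hka htr hℓ (le_adj_left k _) (τ i) h2 g
      (fun j => subset_adj _ _ ⟨j, rfl⟩) (ho i))
  have h2 := rk_iUnion_fin_le L (fun i => Set.range (τ i)) 0 h1
  have h3 : rk k (⋃ i, Set.range (τ i)) ≤ rk k (Set.range g) := by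
    calc rk k (⋃ i, Set.range (τ i)) ≤ rk k ((⋃ i, Set.range (τ i)) ∪ Set.range g) :=
          rk_mono _ Set.subset_union_left
      _ = rk k (Set.range g) + rk L (⋃ i, Set.range (τ i)) := rk_union _ _ _
      _ ≤ rk k (Set.range g) + 0 := by
          refine add_le_add_right ?_ _
          simpa using h2
      _ = _ := add_zero _
  exact hτ.trans h3

end

/-- homogeneous polynomials and scaling -/
theorem aeval_smul {Ω : Type} [Field Ω] {k : Subfield Ω} {ι : Type} [Fintype ι] {m : ℕ}
    {Φ : MvPolynomial ι k} (hΦ : Φ.IsHomogeneous m) (c : Ω) (g : ι → Ω) :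
    aeval (fun i => c * g i) Φ = c ^ m * aeval g Φ := by
  rw [aeval_def, aeval_def, eval₂_eq', eval₂_eq', Finset.mul_sum]
  refine Finset.sum_congr rfl fun s hs => ?_
  have h1 : s.degree = m := by
    have := hΦ (mem_support_iff.1 hs)
    rw [Finsupp.degree_eq_weight_one]
    exact this
  have h2 : ∏ i, (c * g i) ^ s i = c ^ m * ∏ i, g i ^ s i := by
    simp_rw [mul_pow]
    rw [Finset.prod_mul_distrib, Finset.prod_pow_eq_pow_sum]
    congr 2
    rw [← h1, Finsupp.degree]
    exact (Finset.sum_subset (Finset.subset_univ _) fun i _ hi => by simpa using hi).symm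
  rw [h2]
  ring

/-- a vector of large rank with a coordinate one is generic -/
theorem generic_of_rk {Ω : Type} [Field Ω] {k : Subfield Ω} [Infinite k] {h : ℕ} (g : Fin h → Ω)
    (j0 : Fin h) (hj0 : g j0 = 1) (hr : ((h - 1 : ℕ) : ℕ∞) ≤ rk k (Set.range g)) (m : ℕ)
    (Φ : MvPolynomial (Fin h) k) (hΦ : Φ.IsHomogeneous m) (hΦ0 : Φ ≠ 0) : aeval g Φ ≠ 0 := by
  classical
  set g' : {j // j ≠ j0} → Ω := fun j => g j with hg'
  have h1 : rk k (Set.range g) ≤ rk k (Set.range g') := by
    have h2 : Set.range g ⊆ Set.range g' ∪ {1} := by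
      rintro _ ⟨j, rfl⟩
      by_cases hj : j = j0
      · right
        rw [hj, hj0]
        rfl
      · left
        exact ⟨⟨j, hj⟩, rfl⟩
    have h3 : rk k ({1} : Set Ω) = 0 := rk_eq_zero (by
      rw [Set.singleton_subset_iff]
      exact one_mem _)
    calc _ ≤ rk k (Set.range g' ∪ {1}) := rk_mono _ h2
      _ ≤ rk k (Set.range g') + rk k {1} := rk_union_le _ _ _
      _ = _ := by rw [h3, add_zero]
  obtain ⟨I, hI, hIi, hIc⟩ := le_rk_iff.1 (hr.trans h1)
  have hcard : Fintype.card {j // j ≠ j0} = h - 1 := by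
    rw [Fintype.card_subtype_compl]
    simp
  have h4 : (Set.range g').encard ≤ ((h - 1 : ℕ) : ℕ∞) := by
    rw [← Set.image_univ]
    refine (Set.encard_image_le _ _).trans ?_
    rw [Set.encard_univ, ENat.card_eq_coe_fintype_card, hcard]
  have h5 : I = Set.range g' := by
    have hfin : (Set.range g').Finite := Set.finite_range _
    refine (hfin.subset hI).eq_of_subset_of_encard_le hI ?_
    rw [hIc]
    exact h4
  have hinj : Function.Injective g' := by
    rw [← Set.injOn_univ]
    apply Set.finite_univ.injOn_of_encard_image_eq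
    rw [Set.image_univ, ← h5, hIc, Set.encard_univ, ENat.card_eq_coe_fintype_card, hcard]
  have hai : AlgebraicIndependent k g' := by
    have h6 : AlgebraicIndependent k (fun x : Set.range g' => (x : Ω)) := by
      rw [← h5]
      exact hIi
    have h7 := h6.comp (Set.rangeFactorization g') (by
      intro x y hxy
      exact hinj (congrArg Subtype.val hxy))
    exact h7
  intro hz
  -- dehomogenise
  let s : Fin h → MvPolynomial {j // j ≠ j0} k := fun j => if hj : j = j0 then 1 else X ⟨j, hj⟩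
  have h6 : aeval g' (aeval s Φ : MvPolynomial {j // j ≠ j0} k) = aeval g Φ := by
    have h7 : (aeval g' : MvPolynomial {j // j ≠ j0} k →ₐ[k] Ω).comp (aeval s) = aeval g := by
      apply MvPolynomial.algHom_ext
      intro j
      rw [AlgHom.comp_apply, aeval_X, aeval_X]
      by_cases hj : j = j0
      · simp only [s, dif_pos hj, map_one]
        rw [hj, hj0]
      · simp only [s, dif_neg hj, aeval_X]
        rfl
    exact congrArg (fun f : MvPolynomial (Fin h) k →ₐ[k] Ω => f Φ) h7
  rw [hz] at h6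
  have h8 : (aeval s Φ : MvPolynomial {j // j ≠ j0} k) = 0 := algebraicIndependent_iff.1 hai _ h6
  -- evaluation
  have h9 : ∀ x : Fin h → k, x j0 ≠ 0 → eval x Φ = 0 := by
    intro x hx
    set y : Fin h → k := fun j => (x j0)⁻¹ * x j with hy
    have h10 : eval y Φ = 0 := by
      have h11 : (aeval (fun j : {j // j ≠ j0} => y j) : MvPolynomial {j // j ≠ j0} k →ₐ[k] k).comp
          (aeval s) = aeval y := by
        apply MvPolynomial.algHom_ext
        intro j
        rw [AlgHom.comp_apply, aeval_X, aeval_X]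
        by_cases hj : j = j0
        · simp only [s, dif_pos hj, map_one]
          rw [hj, hy]
          simp [hx]
        · simp only [s, dif_neg hj, aeval_X]
      have h12 := congrArg (fun f : MvPolynomial (Fin h) k →ₐ[k] k => f Φ) h11
      simp only [AlgHom.comp_apply, h8, map_zero] at h12
      rw [← coe_aeval_eq_eval]
      exact h12.symm
    have h13 : eval x Φ = (x j0) ^ m * eval y Φ := by
      have h14 : x = fun j => x j0 * y j := by
        funext j
        rw [hy]
        field_simp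
      conv_lhs => rw [h14]
      rw [eval_eq', eval_eq', Finset.mul_sum]
      refine Finset.sum_congr rfl fun s hs => ?_
      have h1 : s.degree = m := by
        have := hΦ (mem_support_iff.1 hs)
        rw [Finsupp.degree_eq_weight_one]
        exact this
      have h2 : ∏ i, (x j0 * y i) ^ s i = x j0 ^ m * ∏ i, y i ^ s i := by
        simp_rw [mul_pow]
        rw [Finset.prod_mul_distrib, Finset.prod_pow_eq_pow_sum]
        congr 2
        rw [← h1, Finsupp.degree]
        exact (Finset.sum_subset (Finset.subset_univ _) fun i _ hi => by simpa using hi).symm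
      rw [h2]
      ring
    rw [h13, h10, mul_zero]
  have h10 : X j0 * Φ = 0 := by
    apply MvPolynomial.funext
    intro x
    rw [map_mul, eval_X, map_zero]
    by_cases hx : x j0 = 0
    · rw [hx, zero_mul]
    · rw [h9 x hx, mul_zero]
  rcases mul_eq_zero.1 h10 with h11 | h11
  · exact X_ne_zero j0 h11
  · exact hΦ0 h11

end Pool.Agent.Y165.OD
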