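import Pool.Agent.Y148.OD.Stm3

/-!
OD-15, part 1: embeddings of a field of transcendence degree one and ranks.
-/

set_option autoImplicit false

namespace Pool.Agent.Y165.OD

open MvPolynomial Pool.Agent.Y148.OD Cardinal

variable {Ω : Type} [Field Ω]

theorem countable_E {k : Subfield Ω} [Countable k] {E : Type} [Field E] [Algebra k E]
    (h : Algebra.trdeg k E = 1) : Countable E := by
  obtain ⟨I, x, hx⟩ := exists_isTranscendenceBasis' k E
  have h1 : #I = 1 := by rw [hx.cardinalMk_eq_trdeg, h]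
  have hI : Finite I := by
    rw [← Cardinal.lt_aleph0_iff_finite, h1]
    exact Cardinal.one_lt_aleph0
  have halg : Algebra.IsAlgebraic (Algebra.adjoin k (Set.range x)) E := hx.isAlgebraic
  have hc : Countable (MvPolynomial I k) := countable_mvPolynomial
  have hA : Countable (Algebra.adjoin k (Set.range x)) :=
    hx.1.aevalEquiv.toEquiv.countable_iff.1 hc
  have h2 := Algebra.IsAlgebraic.cardinalMk_le_max (Algebra.adjoin k (Set.range x)) E
  rw [← Cardinal.mk_le_aleph0_iff]
  refine h2.trans ?_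
  simp

theorem exists_emb [IsAlgClosed Ω] [Uncountable Ω] {k : Subfield Ω} {E : Type} [Field E]
    [Algebra k E] (h : Algebra.trdeg k E = 1) {L : Subfield Ω} (hk : k ≤ L) (hL : Countable L) :
    ∃ τ : E →ₐ[k] Ω, 1 ≤ rk L (Set.range τ) := by
  obtain ⟨I, x, hx⟩ := exists_isTranscendenceBasis' k E
  have h1 : #I = 1 := by rw [hx.cardinalMk_eq_trdeg, h]
  have hI : Finite I := by
    rw [← Cardinal.lt_aleph0_iff_finite, h1]
    exact Cardinal.one_lt_aleph0
  obtain ⟨i0⟩ : Nonempty I := by
    rw [← Cardinal.mk_ne_zero_iff, h1]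
    exact one_ne_zero
  obtain ⟨b, hb⟩ := Pool.Agent.Y141.OD.exists_indep L hL I
  let _ : Algebra k L := (Subfield.inclusion hk).toAlgebra
  have : IsScalarTower k L Ω := IsScalarTower.of_algebraMap_eq fun x => rfl
  have hb' : AlgebraicIndependent k b :=
    AlgebraicIndependent.restrictScalars (K := L) (algebraMap k L).injective hb
  set R := Algebra.adjoin k (Set.range x) with hR
  have halg : Algebra.IsAlgebraic R E := hx.isAlgebraic
  let g' : R →ₐ[k] Ω := (aeval b).comp (hx.1.aevalEquiv.symm : R →ₐ[k] MvPolynomial I k)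
  have hg' : Function.Injective g' := by
    have h3 : Function.Injective (aeval b : MvPolynomial I k →ₐ[k] Ω) := hb'
    exact h3.comp hx.1.aevalEquiv.symm.injective
  let _ : Algebra R Ω := g'.toRingHom.toAlgebra
  have : Module.IsTorsionFree R Ω :=
    Module.isTorsionFree_iff_algebraMap_injective.2 hg'
  have : Module.IsTorsionFree R E :=
    Module.isTorsionFree_iff_algebraMap_injective.2 Subtype.val_injective
  have : IsScalarTower k R Ω := IsScalarTower.of_algebraMap_eq fun x => (g'.commutes x).symm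
  let t0 : E →ₐ[R] Ω := IsAlgClosed.lift
  let t : E →ₐ[k] Ω := t0.restrictScalars k
  have ht : ∀ i, t (x i) = b i := by
    intro i
    have h4 : t0 (algebraMap R E ⟨x i, Algebra.subset_adjoin ⟨i, rfl⟩⟩) =
      algebraMap R Ω ⟨x i, Algebra.subset_adjoin ⟨i, rfl⟩⟩ := t0.commutes _
    have h5 : algebraMap R Ω ⟨x i, Algebra.subset_adjoin ⟨i, rfl⟩⟩ = b i := by
      show (aeval b) (hx.1.aevalEquiv.symm ⟨x i, Algebra.subset_adjoin ⟨i, rfl⟩⟩) = b i
      have h6 : hx.1.aevalEquiv.symm ⟨x i, Algebra.subset_adjoin ⟨i, rfl⟩⟩ = X i := by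
        rw [AlgEquiv.symm_apply_eq]
        apply Subtype.ext
        have h8 := AlgebraicIndependent.algebraMap_aevalEquiv hx.1 (X i)
        rw [aeval_X] at h8
        exact h8.symm
      rw [h6, aeval_X]
    exact h4.trans h5
  refine ⟨t, ?_⟩
  rw [le_rk_iff]
  refine ⟨{b i0}, ?_, ?_, by simp⟩
  · rw [Set.singleton_subset_iff]
    exact ⟨x i0, ht i0⟩
  · have h7 : Transcendental L (b i0) := by
      have := hb.comp (fun _ : Unit => i0) (fun _ _ _ => rfl)
      exact (algebraicIndependent_unique_type_iff.1 this)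
    have h8 : AlgebraicIndependent L (fun y : ({b i0} : Set Ω) => (y : Ω)) := by
      rw [algebraicIndependent_unique_type_iff]
      exact h7
    exact h8

theorem rk_range_le {k : Subfield Ω} {E : Type} [Field E] [Algebra k E]
    (h : Algebra.trdeg k E = 1) (τ : E →ₐ[k] Ω) : rk k (Set.range τ) ≤ 1 := by
  unfold rk
  rw [Matroid.eRk_le_iff]
  intro J hJ hJi
  have hJ1 : AlgebraicIndepOn k id J := hJi
  choose s hs using fun j : J => hJ j.2
  have h2 : AlgebraicIndependent k s := by
    have h3 : AlgebraicIndependent k (τ ∘ s) := by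
      have : τ ∘ s = fun j : J => (j : Ω) := funext hs
      rw [this]
      exact hJ1
    exact AlgebraicIndependent.of_comp τ h3
  have h4 := h2.cardinalMk_le_trdeg
  rw [h] at h4
  have h5 : Subsingleton J := Cardinal.le_one_iff_subsingleton.1 h4
  rw [Set.encard_le_one_iff_subsingleton]
  exact (Set.subsingleton_coe J).1 h5

theorem rk_range_le' {k L : Subfield Ω} (hL : k ≤ L) {E : Type} [Field E] [Algebra k E]
    (h : Algebra.trdeg k E = 1) (τ : E →ₐ[k] Ω) : rk L (Set.range τ) ≤ 1 :=
  (rk_anti hL _).trans (rk_range_le h τ)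

/-- ranks of subsets of a set of rank one -/
theorem rk_sub_eq {k L : Subfield Ω} (hL : k ≤ L) {R S : Set Ω} (hS : S ⊆ R) (h1 : rk k R ≤ 1)
    (h2 : 1 ≤ rk L R) : rk L S = rk k S := by
  refine le_antisymm (rk_anti hL S) ?_
  by_cases h0 : rk k S = 0
  · rw [h0]; exact zero_le
  have h3 : 1 ≤ rk k S := Order.one_le_iff_pos.2 (pos_iff_ne_zero.2 h0)
  have h4 : rk k S ≤ 1 := (rk_mono k hS).trans h1
  have h5 : R ∪ S = R := Set.union_eq_left.2 hS
  have h6 := rk_union k R S
  rw [h5] at h6
  have h7 : rk (adj k S) R = 0 := by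
    rw [h6] at h1
    have h8 : (1 : ℕ∞) + rk (adj k S) R ≤ 1 := (add_le_add_left h3 _).trans h1
    have h9 : (1 : ℕ∞) + rk (adj k S) R ≤ 1 + 0 := by rw [add_zero]; exact h8
    have := (ENat.add_le_add_iff_left ENat.one_ne_top).1 h9
    exact le_antisymm this zero_le
  have h8 := rk_union L R S
  rw [h5] at h8
  have h9 : rk (adj L S) R ≤ rk (adj k S) R :=
    rk_anti (adj_le (hL.trans (le_adj_left _ _)) (subset_adj _ _)) R
  rw [h7] at h9
  have h10 : rk (adj L S) R = 0 := le_antisymm h9 zero_le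
  rw [h10, add_zero] at h8
  calc rk k S ≤ 1 := h4
    _ ≤ rk L R := h2
    _ = rk L S := h8

end Pool.Agent.Y165.OD
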